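import Pool.Agent.H95.ESP.Stmts

/-!
# Row PGR of the board `esp`: Chebyshev's lower bound for the number of primes
-/

set_option autoImplicit false

namespace ESP

open Finset Filter

theorem pgr_ev (K b : ℝ) (hK : 0 < K) (hb : b < 1) :
    ∀ᶠ y : ℝ in atTop, K * y ^ b * Real.log y ≤ y / 4 := by
  have h1 := (isLittleO_log_rpow_atTop (show 0 < 1 - b by linarith)).bound
    (show 0 < 1 / (4 * K) by positivity)
  filter_upwards [h1, eventually_ge_atTop 1] with y hy hy1
  have hy0 : 0 < y := by linarith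
  rw [Real.norm_eq_abs, Real.norm_eq_abs, abs_of_nonneg (Real.log_nonneg hy1),
    abs_of_nonneg (Real.rpow_nonneg hy0.le _)] at hy
  have h2 : y ^ b * y ^ (1 - b) = y := by
    rw [← Real.rpow_add hy0, add_sub_cancel, Real.rpow_one]
  calc K * y ^ b * Real.log y ≤ K * y ^ b * (1 / (4 * K) * y ^ (1 - b)) := by
        apply mul_le_mul_of_nonneg_left hy
        have := Real.rpow_nonneg hy0.le b
        positivity
    _ = (y ^ b * y ^ (1 - b)) / 4 := by
        field_simp
    _ = y / 4 := by rw [h2]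

theorem pgr_thm : S_PGR := by
  intro α C η hα hC hη
  have ha : 1 / α < 1 := by
    rw [div_lt_one (by linarith)]
    exact hα
  have ha0 : 0 < 1 / α := by positivity
  set b : ℝ := max (1 - η) (1 / α) with hb
  have hb1 : b < 1 := max_lt (by linarith) ha
  have hCa : 0 < C ^ (1 / α) := Real.rpow_pos_of_pos hC _
  set K : ℝ := 7 + 5 / C ^ (1 / α) with hKd
  have hK : 0 < K := by positivity
  obtain ⟨y₀, hy₀⟩ := eventually_atTop.1 (pgr_ev (K + 2) b (by linarith) hb1)
  refine ⟨max y₀ 3, fun y hy n hn => ?_⟩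
  have h3 : 3 ≤ y := (le_max_right _ _).trans hy
  have hy0 : 0 < y := by linarith
  have hy1 : 1 ≤ y := by linarith
  have h4 := hy₀ y ((le_max_left _ _).trans hy)
  by_contra hcon
  push Not at hcon
  have hlog : 0 < Real.log y := Real.log_pos (by linarith)
  have hyb : 1 ≤ y ^ b := Real.one_le_rpow hy1 (ha0.le.trans (le_max_right _ _))
  have e1 : y ^ (1 - η) ≤ y ^ b := Real.rpow_le_rpow_of_exponent_le hy1 (le_max_left _ _)
  have e2 : y ^ (1 / α) ≤ y ^ b := Real.rpow_le_rpow_of_exponent_le hy1 (le_max_right _ _)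
  have e3 : 5 * (y / C) ^ (1 / α) ≤ 5 / C ^ (1 / α) * y ^ b := by
    rw [Real.div_rpow hy0.le hC.le]
    calc 5 * (y ^ (1 / α) / C ^ (1 / α)) = 5 / C ^ (1 / α) * y ^ (1 / α) := by ring
      _ ≤ 5 / C ^ (1 / α) * y ^ b := mul_le_mul_of_nonneg_left e2 (by positivity)
  have e4 : (Nat.primeCounting ⌊y⌋₊ : ℝ) ≤ K * y ^ b := by
    have : K * y ^ b = y ^ b + 6 * y ^ b + 5 / C ^ (1 / α) * y ^ b := by
      rw [hKd]
      ring
    rw [this]
    linarith
  have e5 := Chebyshev.psi_le_primeCounting_mul_log' y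
  have e6 := Chebyshev.psi_ge' hy0.le
  have e7 : (Nat.primeCounting ⌊y⌋₊ : ℝ) * Real.log y ≤ K * y ^ b * Real.log y :=
    mul_le_mul_of_nonneg_right e4 hlog.le
  have e8 : Real.log (y + 2) ≤ 2 * y ^ b * Real.log y := by
    calc Real.log (y + 2) ≤ Real.log (y ^ 2) := by
          apply Real.log_le_log (by linarith)
          nlinarith
      _ = 2 * Real.log y := by
          rw [Real.log_pow]
          norm_num
      _ ≤ 2 * y ^ b * Real.log y := by
          nlinarith
  have e9 := Real.log_two_gt_d9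
  have e10 : (K + 2) * y ^ b * Real.log y = K * y ^ b * Real.log y + 2 * y ^ b * Real.log y := by
    ring
  nlinarith

end ESP
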